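import Pool.Agent.J4H64.MN.Def
import Pool.Agent.J4H46.MC.Pfin

set_option autoImplicit false

/-!
# Project MN, piece NPFIN (helper68): the asymptotic form (after helper46's `Pfin`)
-/

namespace Pool.Agent.J4H68.MN

open Finset Filter
open Pool.Agent.J4H64.MC Pool.Agent.J4H64.MN Pool.Agent.J4H46.MC

theorem core (k c : ℕ) (hk : 3 ≤ k) (hc : 1 ≤ c) (A : ℝ) (hA : A = 16 * (k : ℝ) ^ 2 * 2 ^ (k + 1)) (N n : ℕ)
    (hN8 : 8 * k ^ 2 * 2 ^ (k + 1) ≤ N) (hNn : N ≤ n) (hn4 : 4 ≤ n)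
    (hnB : A * (16384 * (k : ℝ) ^ 2 * c + 2) * Real.log n ^ 4 ≤ (N : ℝ) ^ ((k : ℝ) / (k + 1))) :
    ∃ μ e : ℕ, 1 ≤ μ ∧ 1 ≤ e ∧ 8192 * (k * μ) ^ 2 * e * c + 1 ≤ 2 ^ (k * μ) ∧
      2 ^ (k * μ) + 2 ^ (k * μ) * (k * μ) * (2 * (k * μ) + 3) + 2 ^ (k * μ) * (k * 2 ^ μ) * (μ + 1) ≤ N ∧
      1 / (A * (16384 * (k : ℝ) ^ 2 * c)) * (N : ℝ) ^ ((k : ℝ) / (k + 1)) / Real.log n ^ 3 ≤ e := by
  have hk0 : (0 : ℝ) < k := by exact_mod_cast (by omega : 0 < k)
  have hk1 : (3 : ℝ) ≤ k := by exact_mod_cast hk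
  have hc1 : (1 : ℝ) ≤ c := by exact_mod_cast hc
  set r : ℝ := (k : ℝ) / (k + 1) with hr
  have hr0 : 0 < r := by rw [hr]; positivity
  have hr1 : r ≤ 1 := by rw [hr, div_le_one (by positivity)]; linarith
  have hA0 : 1 ≤ A := by
    have : (1 : ℝ) ≤ 2 ^ (k + 1) := one_le_pow₀ (by norm_num)
    rw [hA]
    nlinarith
  have hnR : (4 : ℝ) ≤ n := by exact_mod_cast hn4
  set L : ℝ := Real.log n with hL
  have hL1 : 1 ≤ L := by
    rw [hL, Real.le_log_iff_exp_le (by linarith)]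
    have := Real.exp_one_lt_d9
    linarith
  obtain ⟨μ, hμ1, hμ2, hμ3⟩ := exists_mu (by omega : 1 ≤ k) hN8
  have hμR : (1 : ℝ) ≤ μ := by exact_mod_cast hμ1
  -- `μ ≤ L`
  have hμL : (μ : ℝ) ≤ L := by
    have h1 : 2 ^ ((k + 1) * μ) ≤ n := by
      have h2 : 1 ≤ 8 * k ^ 2 * μ := by
        have : 1 ≤ k ^ 2 * μ := Nat.one_le_iff_ne_zero.mpr (by positivity)
        nlinarith
      calc 2 ^ ((k + 1) * μ) = 1 * 2 ^ ((k + 1) * μ) := (one_mul _).symm
        _ ≤ 8 * k ^ 2 * μ * 2 ^ ((k + 1) * μ) := Nat.mul_le_mul_right _ h2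
        _ ≤ N := hμ2
        _ ≤ n := hNn
    have h2 : ((2 : ℝ) ^ ((k + 1) * μ)) ≤ n := by exact_mod_cast h1
    have h3 := Real.log_le_log (by positivity) h2
    rw [Real.log_pow] at h3
    push_cast at h3
    have h4 : (0.5 : ℝ) ≤ Real.log 2 := by linarith [Real.log_two_gt_d9]
    have h5 : (μ : ℝ) ≤ (k + 1) * μ * Real.log 2 := by
      calc (μ : ℝ) = (4 * μ * 0.25 : ℝ) := by ring
        _ ≤ (k + 1) * μ * Real.log 2 := by
          have : (4 : ℝ) * μ ≤ (k + 1) * μ := by nlinarith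
          have h6 : (0 : ℝ) ≤ (k + 1) * μ := by positivity
          nlinarith
    linarith
  -- the size of `2 ^ (k μ)`
  have hM : (N : ℝ) ^ r ≤ A * L * 2 ^ (k * μ) := by
    have h1 : (N : ℝ) ≤ A * L * 2 ^ ((k + 1) * μ) := by
      have h2 : (N : ℝ) < 8 * (k : ℝ) ^ 2 * (μ + 1) * 2 ^ ((k + 1) * (μ + 1)) := by exact_mod_cast hμ3
      have e : (2 : ℝ) ^ ((k + 1) * (μ + 1)) = 2 ^ (k + 1) * 2 ^ ((k + 1) * μ) := by
        rw [← pow_add]; congr 1; ring
      rw [e] at h2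
      refine h2.le.trans ?_
      have h3 : (μ : ℝ) + 1 ≤ 2 * L := by linarith
      calc 8 * (k : ℝ) ^ 2 * (μ + 1) * (2 ^ (k + 1) * 2 ^ ((k + 1) * μ))
          ≤ 8 * (k : ℝ) ^ 2 * (2 * L) * (2 ^ (k + 1) * 2 ^ ((k + 1) * μ)) := by gcongr
        _ = A * L * 2 ^ ((k + 1) * μ) := by rw [hA]; ring
    have h4 : (N : ℝ) ^ r ≤ (A * L * 2 ^ ((k + 1) * μ)) ^ r := Real.rpow_le_rpow (by positivity) h1 hr0.le
    refine h4.trans ?_
    rw [Real.mul_rpow (by positivity) (by positivity)]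
    have h5 : ((2 : ℝ) ^ ((k + 1) * μ)) ^ r = 2 ^ (k * μ) := by
      rw [← Real.rpow_natCast, ← Real.rpow_natCast, ← Real.rpow_mul (by norm_num)]
      congr 1
      rw [hr]
      push_cast
      field_simp
    have h6 : (A * L) ^ r ≤ A * L := by
      have : 1 ≤ A * L := by nlinarith
      calc (A * L) ^ r ≤ (A * L) ^ (1 : ℝ) := Real.rpow_le_rpow_of_exponent_le this hr1
        _ = A * L := Real.rpow_one _
    rw [h5]
    gcongr
  set M : ℕ := 2 ^ (k * μ) with hMdef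
  have hMR : (M : ℝ) = 2 ^ (k * μ) := by rw [hMdef]; push_cast; rfl
  rw [← hMR] at hM
  set D : ℕ := 8192 * (k * μ) ^ 2 * c with hD
  have hDR : (D : ℝ) = 8192 * ((k : ℝ) * μ) ^ 2 * c := by rw [hD]; push_cast; rfl
  have hDL : (D : ℝ) ≤ 8192 * (k : ℝ) ^ 2 * c * L ^ 2 := by
    rw [hDR, mul_pow]
    calc 8192 * ((k : ℝ) ^ 2 * (μ : ℝ) ^ 2) * c ≤ 8192 * ((k : ℝ) ^ 2 * L ^ 2) * c := by gcongr
      _ = _ := by ring
  have hAL : 0 < A * L := by positivity
  -- `M ≥ 2 D + 2`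
  have hMD : 2 * D + 2 ≤ M := by
    have h1 : A * L * (2 * (D : ℝ) + 2) ≤ A * L * M := by
      refine le_trans ?_ (hnB.trans hM)
      have h2 : A * L * (2 * (D : ℝ) + 2) ≤ A * L * ((16384 * (k : ℝ) ^ 2 * c + 2) * L ^ 3) := by
        have hL2 : 1 ≤ L ^ 2 := one_le_pow₀ hL1
        have h3 : 2 * (D : ℝ) + 2 ≤ (16384 * (k : ℝ) ^ 2 * c + 2) * L ^ 2 := by
          calc 2 * (D : ℝ) + 2 ≤ 2 * (8192 * (k : ℝ) ^ 2 * c * L ^ 2) + 2 * L ^ 2 := by linarith
            _ = _ := by ring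
        have h4 : L ^ 2 ≤ L ^ 3 := pow_le_pow_right₀ hL1 (by norm_num)
        have h5 : (16384 * (k : ℝ) ^ 2 * c + 2) * L ^ 2 ≤ (16384 * (k : ℝ) ^ 2 * c + 2) * L ^ 3 := by gcongr
        gcongr
        linarith
      refine h2.trans ?_
      calc A * L * ((16384 * (k : ℝ) ^ 2 * c + 2) * L ^ 3) = A * (16384 * (k : ℝ) ^ 2 * c + 2) * L ^ 4 := by ring
        _ ≤ _ := le_rfl
    have h6 := le_of_mul_le_mul_left h1 hAL
    exact_mod_cast h6
  have hD0 : 0 < D := by rw [hD]; positivity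
  -- the parameter `e`
  set e : ℕ := (M - 1) / D with he
  have he1 : 1 ≤ e := by
    rw [he, Nat.one_le_div_iff hD0]
    omega
  have he2 : D * e + 1 ≤ M := by
    have := Nat.mul_div_le (M - 1) D
    rw [← he] at this
    omega
  have he3 : M ≤ D * e + D := by
    have := Nat.lt_mul_div_succ (M - 1) hD0
    rw [← he, mul_add, mul_one] at this
    omega
  have heR : (M : ℝ) ≤ 2 * D * e := by
    have h1 : (M : ℝ) ≤ D * e + D := by exact_mod_cast he3
    have h2 : 2 * (D : ℝ) + 2 ≤ M := by exact_mod_cast hMD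
    linarith
  refine ⟨μ, e, hμ1, he1, ?_, (size_le (by omega) hμ1).trans hμ2, ?_⟩
  · have : 8192 * (k * μ) ^ 2 * e * c = D * e := by rw [hD]; ring
    rw [this]
    exact he2
  · have h1 : (N : ℝ) ^ r ≤ A * L * (2 * (8192 * (k : ℝ) ^ 2 * c * L ^ 2) * e) := by
      refine hM.trans ?_
      gcongr
      refine heR.trans ?_
      gcongr
    have h2 : 1 / (A * (16384 * (k : ℝ) ^ 2 * c)) * (N : ℝ) ^ r / L ^ 3 =
        (N : ℝ) ^ r / (A * (16384 * (k : ℝ) ^ 2 * c) * L ^ 3) := by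
      field_simp
    rw [h2, div_le_iff₀ (by positivity)]
    refine h1.trans (le_of_eq ?_)
    ring

/-- logarithms are small -/
theorem ev_log' (s : ℝ) (hs : 0 < s) (B : ℝ) : ∀ᶠ n : ℕ in atTop, B * Real.log n ^ 4 ≤ (n : ℝ) ^ s := by
  have h := isLittleO_log_rpow_rpow_atTop (s := s) 4 hs
  have h1 : ∀ᶠ x : ℝ in atTop, |B| * Real.log x ^ 4 ≤ x ^ s := by
    have hB : 0 < 1 / (|B| + 1) := by positivity
    filter_upwards [h.bound hB, eventually_ge_atTop (1 : ℝ)] with x hx hx1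
    have hl : 0 ≤ Real.log x := Real.log_nonneg hx1
    have e4 : Real.log x ^ (4 : ℝ) = Real.log x ^ 4 := by
      rw [show (4 : ℝ) = ((4 : ℕ) : ℝ) by norm_num, Real.rpow_natCast]
    rw [e4, Real.norm_of_nonneg (by positivity), Real.norm_of_nonneg (by positivity)] at hx
    rw [one_div, inv_mul_eq_div, le_div_iff₀ (by positivity)] at hx
    nlinarith [pow_nonneg hl 4]
  have h2 := tendsto_natCast_atTop_atTop.eventually h1
  filter_upwards [h2] with n hn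
  refine le_trans ?_ hn
  have : (0 : ℝ) ≤ Real.log n ^ 4 := by positivity
  gcongr
  exact le_abs_self B

theorem t_NPFIN : S_NPFIN := by
  classical
  intro hPAR k hk γ hγ
  have hk0 : (0 : ℝ) < k := by exact_mod_cast (by omega : 0 < k)
  have hk1 : (3 : ℝ) ≤ k := by exact_mod_cast hk
  set r : ℝ := (k : ℝ) / (k + 1) with hr
  have hr0 : 0 < r := by rw [hr]; positivity
  have hr1 : r ≤ 1 := by rw [hr, div_le_one (by positivity)]; linarith
  obtain ⟨c, hc1, hcγ⟩ : ∃ c : ℕ, 1 ≤ c ∧ 1 / (c : ℝ) ≤ γ := by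
    refine ⟨⌈1 / γ⌉₊ + 1, by omega, ?_⟩
    have h1 : 1 / γ ≤ ((⌈1 / γ⌉₊ + 1 : ℕ) : ℝ) := by
      push_cast
      linarith [Nat.le_ceil (1 / γ)]
    rw [one_div, inv_le_comm₀ (by positivity) hγ, ← one_div]
    exact h1
  have hcR : (1 : ℝ) ≤ c := by exact_mod_cast hc1
  set A : ℝ := 16 * (k : ℝ) ^ 2 * 2 ^ (k + 1) with hA
  have hA0 : 1 ≤ A := by
    have : (1 : ℝ) ≤ 2 ^ (k + 1) := one_le_pow₀ (by norm_num)
    rw [hA]
    nlinarith
  set c' : ℝ := 1 / (A * (16384 * (k : ℝ) ^ 2 * c)) with hc'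
  have hc'0 : 0 < c' := by rw [hc']; positivity
  set B0 : ℝ := A * (16384 * (k : ℝ) ^ 2 * c + 2) + 2 * (4 * k + 20 * c) / c' with hB0
  have hB1 : A * (16384 * (k : ℝ) ^ 2 * c + 2) ≤ B0 := by
    rw [hB0]
    have : 0 ≤ 2 * (4 * (k : ℝ) + 20 * c) / c' := by positivity
    linarith
  have hB2 : 4 * (k : ℝ) + 20 * c ≤ c' / 2 * B0 := by
    have e1 : c' / 2 * (2 * (4 * (k : ℝ) + 20 * c) / c') = 4 * k + 20 * c := by field_simp
    have e2 : 0 ≤ c' / 2 * (A * (16384 * (k : ℝ) ^ 2 * c + 2)) := by positivity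
    rw [hB0, mul_add, e1]
    linarith
  have hB00 : 0 ≤ B0 := by rw [hB0]; positivity
  refine ⟨c' / (8 * c), by positivity, fun η hη => ?_⟩
  have hη0 : 0 < 1 - η := by linarith
  have ev1 : ∀ᶠ n : ℕ in atTop, 4 * (c : ℝ) * (8 * k ^ 2 * 2 ^ (k + 1) + 1) ≤ (n : ℝ) ^ (1 - η) :=
    ((tendsto_rpow_atTop hη0).comp tendsto_natCast_atTop_atTop).eventually (eventually_ge_atTop _)
  filter_upwards [ev_log' (r * (1 - η)) (by positivity) (4 * c * B0), ev1, eventually_ge_atTop 4] with n hnB hn8 hn4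
  intro B hB1' hBn
  have hnR : (4 : ℝ) ≤ n := by exact_mod_cast hn4
  have hBR : (1 : ℝ) ≤ B := by exact_mod_cast hB1'
  set L : ℝ := Real.log n with hL
  have hL1 : 1 ≤ L := by
    rw [hL, Real.le_log_iff_exp_le (by linarith)]
    have := Real.exp_one_lt_d9
    linarith
  -- the block size
  set x : ℝ := (n : ℝ) / B with hx
  have hxn : (n : ℝ) ^ (1 - η) ≤ x := by
    rw [hx, le_div_iff₀ (by linarith), Real.rpow_sub (by linarith), Real.rpow_one, div_mul_eq_mul_div,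
      div_le_iff₀ (by positivity)]
    gcongr
  set N : ℕ := n / (c * (2 * B)) with hN
  have hcB : 0 < c * (2 * B) := by positivity
  have hNx : x / (4 * c) ≤ N := by
    have h1 : (n : ℝ) / ((c * (2 * B) : ℕ) : ℝ) < N + 1 := by
      rw [div_lt_iff₀ (by exact_mod_cast hcB)]
      have := Nat.lt_mul_div_succ n hcB
      rw [← hN] at this
      have h2 : (n : ℝ) < ((c * (2 * B) : ℕ) : ℝ) * (N + 1) := by exact_mod_cast this
      linarith
    have h2 : (n : ℝ) / ((c * (2 * B) : ℕ) : ℝ) = 2 * (x / (4 * c)) := by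
      rw [hx]
      push_cast
      field_simp
      ring
    have h3 : 1 ≤ x / (4 * c) := by
      rw [le_div_iff₀ (by positivity)]
      have h4 : (1 : ℝ) * (4 * c) ≤ 4 * (c : ℝ) * (8 * k ^ 2 * 2 ^ (k + 1) + 1) := by
        have : (0 : ℝ) ≤ 8 * k ^ 2 * 2 ^ (k + 1) := by positivity
        nlinarith
      linarith
    linarith
  have hN8 : 8 * k ^ 2 * 2 ^ (k + 1) ≤ N := by
    have h1 : (8 * k ^ 2 * 2 ^ (k + 1) : ℝ) ≤ N := by
      refine le_trans ?_ hNx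
      rw [le_div_iff₀ (by positivity)]
      have h4 : (8 * (k : ℝ) ^ 2 * 2 ^ (k + 1)) * (4 * c) ≤ 4 * (c : ℝ) * (8 * k ^ 2 * 2 ^ (k + 1) + 1) := by
        have : (0 : ℝ) ≤ 4 * (c : ℝ) := by positivity
        nlinarith
      linarith
    exact_mod_cast h1
  have hNn : N ≤ n := Nat.div_le_self _ _
  have hxN : x ^ r ≤ 4 * c * (N : ℝ) ^ r := by
    have hx0 : 0 ≤ x := by rw [hx]; positivity
    have h1 : x ≤ 4 * c * N := by
      rw [div_le_iff₀ (by positivity)] at hNx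
      linarith
    calc x ^ r ≤ (4 * c * N) ^ r := Real.rpow_le_rpow hx0 h1 hr0.le
      _ = (4 * c) ^ r * (N : ℝ) ^ r := Real.mul_rpow (by positivity) (by positivity)
      _ ≤ (4 * c) ^ (1 : ℝ) * (N : ℝ) ^ r := by
        gcongr
        linarith
      _ = _ := by rw [Real.rpow_one]
  have hNB : B0 * L ^ 4 ≤ (N : ℝ) ^ r := by
    have h1 : (n : ℝ) ^ (r * (1 - η)) ≤ x ^ r := by
      rw [mul_comm, Real.rpow_mul (by positivity)]
      exact Real.rpow_le_rpow (by positivity) hxn hr0.le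
    have h2 : 4 * c * (B0 * L ^ 4) ≤ 4 * c * (N : ℝ) ^ r := by
      calc 4 * c * (B0 * L ^ 4) = 4 * c * B0 * L ^ 4 := by ring
        _ ≤ _ := hnB
        _ ≤ _ := h1
        _ ≤ _ := hxN
    exact le_of_mul_le_mul_left h2 (by positivity)
  obtain ⟨μ, e, hμ1, he1, h1, h2, h3⟩ := core k c hk hc1 A hA N n hN8 hNn hn4
    ((mul_le_mul_of_nonneg_right hB1 (by positivity)).trans hNB)
  obtain ⟨Λ, i1, i2, D, hD⟩ := hPAR k μ n e (c * (2 * B)) c B hk hμ1 he1 hc1 hB1' le_rfl h1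
    ((Nat.mul_le_mul_left _ h2).trans (Nat.mul_div_le _ _))
  refine ⟨Λ, i1, i2, D, fun C hC hm => ?_⟩
  have h4 := hD C hC ?_
  · -- the end
    have h5 : ({l | C.Acc (D l) ↔ Sat (D l)}.ncard) = (univ.filter (fun l => (C.Acc (D l) ↔ Sat (D l)))).card := by
      rw [← Set.ncard_coe_finset]
      congr 1
      ext l
      simp
    rw [h5]
    have h6 : 2 * (c : ℝ) * ((univ.filter (fun l => (C.Acc (D l) ↔ Sat (D l)))).card : ℝ) <
        (c + 2) * (Fintype.card Λ : ℝ) := by exact_mod_cast h4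
    have h7 : (0 : ℝ) ≤ (Fintype.card Λ : ℝ) := Nat.cast_nonneg _
    have h8 : ((univ.filter (fun l => (C.Acc (D l) ↔ Sat (D l)))).card : ℝ) <
        (1 / 2 + 1 / c) * (Fintype.card Λ : ℝ) := by
      have h9 : (1 / 2 + 1 / (c : ℝ)) * (Fintype.card Λ : ℝ) = ((c + 2) * (Fintype.card Λ : ℝ)) / (2 * c) := by
        field_simp
      rw [h9, lt_div_iff₀ (by positivity)]
      linarith
    refine h8.trans_le ?_
    gcongr
  · -- the size
    set X : ℝ := c' / (8 * c) * x ^ r / L ^ 3 with hX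
    set Y : ℝ := c' / 2 * (N : ℝ) ^ r / L ^ 3 with hY
    have hL3 : 0 < L ^ 3 := by positivity
    have hXY : X ≤ Y := by
      rw [hX, hY]
      apply div_le_div_of_nonneg_right _ hL3.le
      calc c' / (8 * c) * x ^ r ≤ c' / (8 * c) * (4 * c * (N : ℝ) ^ r) := by gcongr
        _ = c' / 2 * (N : ℝ) ^ r := by field_simp; ring
    have hYe : 2 * Y ≤ e := by
      have : 2 * Y = c' * (N : ℝ) ^ r / L ^ 3 := by rw [hY]; ring
      rw [this]
      exact h3
    have hYL : (4 * (k : ℝ) + 20 * c) * L ≤ Y := by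
      rw [hY, le_div_iff₀ hL3]
      calc (4 * (k : ℝ) + 20 * c) * L * L ^ 3 = (4 * (k : ℝ) + 20 * c) * L ^ 4 := by ring
        _ ≤ c' / 2 * B0 * L ^ 4 := by gcongr
        _ = c' / 2 * (B0 * L ^ 4) := by ring
        _ ≤ c' / 2 * (N : ℝ) ^ r := by gcongr
    have hY20 : 20 * (c : ℝ) ≤ Y := by nlinarith
    have hY1 : (1 : ℝ) ≤ Y := by linarith
    have h2Y : 1 ≤ (2 : ℝ) ^ Y := Real.one_le_rpow (by norm_num) (by linarith)
    have hl2 : (0.5 : ℝ) ≤ Real.log 2 := by linarith [Real.log_two_gt_d9]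
    -- the number of clauses
    have hQ : (Fintype.card (Clause n k) : ℝ) + 2 ≤ 2 ^ Y := by
      have h1 : (Fintype.card (Clause n k) : ℝ) ≤ (2 * n + 1) ^ k := by exact_mod_cast card_clause n k
      have h2 : ((2 : ℝ) * n + 1) ^ k + 2 ≤ 2 * (n ^ 2 : ℝ) ^ k := by
        have h4 : ((2 : ℝ) * n + 1) ^ k ≤ (n ^ 2) ^ k := by
          apply pow_le_pow_left₀ (by positivity)
          nlinarith
        have h5 : (2 : ℝ) ≤ (n ^ 2) ^ k := by
          calc (2 : ℝ) ≤ n ^ 2 := by nlinarith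
            _ = (n ^ 2) ^ 1 := (pow_one _).symm
            _ ≤ (n ^ 2) ^ k := pow_le_pow_right₀ (by nlinarith) (by omega)
        linarith
      have h6 : ((n : ℝ) ^ 2) ^ k = Real.exp (2 * k * L) := by
        rw [← pow_mul, hL, mul_comm (2 * (k : ℝ)), Real.exp_mul, Real.exp_log (by linarith)]
        rw [show (2 * (k : ℝ)) = ((2 * k : ℕ) : ℝ) by push_cast; ring, Real.rpow_natCast]
      have h7 : (2 : ℝ) ^ Y = Real.exp (Real.log 2 * Y) := by
        rw [Real.rpow_def_of_pos (by norm_num)]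
      have h8 : (2 : ℝ) ≤ Real.exp 1 := by
        have := Real.add_one_le_exp (1 : ℝ)
        linarith
      have h9 : 2 * (n ^ 2 : ℝ) ^ k ≤ Real.exp (1 + 2 * k * L) := by
        rw [h6, Real.exp_add]
        gcongr
      rw [h7]
      refine (by linarith : (Fintype.card (Clause n k) : ℝ) + 2 ≤ Real.exp (1 + 2 * k * L)).trans ?_
      apply Real.exp_le_exp.mpr
      have h10 : 1 + 2 * k * L ≤ 0.5 * ((4 * (k : ℝ) + 20 * c) * L) := by nlinarith
      nlinarith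
    have hm' : (C.m : ℝ) < 2 ^ Y := hm.trans_le (Real.rpow_le_rpow_of_exponent_le (by norm_num) hXY)
    have h10 : 4 * (c : ℝ) * ((C.m + 1) * (C.m + Fintype.card (Clause n k) + 2) + 1) ≤ 4 ^ (e : ℝ) := by
      have e1 : (4 : ℝ) ^ Y = 2 ^ Y * 2 ^ Y := by
        rw [show (4 : ℝ) = 2 * 2 by norm_num, Real.mul_rpow (by norm_num) (by norm_num)]
      have e2 : (4 : ℝ) ^ (2 * Y) ≤ 4 ^ (e : ℝ) := Real.rpow_le_rpow_of_exponent_le (by norm_num) hYe
      have e3 : (4 : ℝ) ^ (2 * Y) = 4 ^ Y * 4 ^ Y := by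
        rw [← Real.rpow_add (by norm_num)]
        congr 1
        ring
      have e4 : ((C.m : ℝ) + 1) * (C.m + Fintype.card (Clause n k) + 2) ≤ (2 * 2 ^ Y) * (2 * 2 ^ Y) := by
        have hm0 : (0 : ℝ) ≤ C.m := Nat.cast_nonneg _
        have hq0 : (0 : ℝ) ≤ (Fintype.card (Clause n k) : ℝ) := Nat.cast_nonneg _
        apply mul_le_mul (by linarith) (by linarith) (by positivity) (by positivity)
      have e5 : ((C.m : ℝ) + 1) * (C.m + Fintype.card (Clause n k) + 2) + 1 ≤ 5 * 4 ^ Y := by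
        rw [e1]
        nlinarith
      have e6 : 20 * (c : ℝ) ≤ 4 ^ Y := by
        have : Y ≤ (4 : ℝ) ^ Y := by
          have h1 : (4 : ℝ) ^ Y = Real.exp (Real.log 4 * Y) := by
            rw [Real.rpow_def_of_pos (by norm_num)]
          rw [h1]
          have h2 := Real.add_one_le_exp (Real.log 4 * Y)
          have h3 : 1 ≤ Real.log 4 := by
            rw [show (4 : ℝ) = 2 ^ 2 by norm_num, Real.log_pow]
            push_cast
            linarith
          nlinarith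
        linarith
      have h4Y : (0 : ℝ) < 4 ^ Y := by positivity
      calc 4 * (c : ℝ) * ((C.m + 1) * (C.m + Fintype.card (Clause n k) + 2) + 1) ≤ 4 * c * (5 * 4 ^ Y) := by gcongr
        _ = 20 * c * 4 ^ Y := by ring
        _ ≤ 4 ^ Y * 4 ^ Y := by gcongr
        _ = 4 ^ (2 * Y) := e3.symm
        _ ≤ _ := e2
    rw [Real.rpow_natCast] at h10
    exact_mod_cast h10

end Pool.Agent.J4H68.MN
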